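import Pool.Agent.X308.P.Nil

/-!
# Nilpotence of homologically trivial correspondences and cycles of small dimension

`𝒱` is a class of smooth projective geometrically irreducible varieties over the field `k` closed
under products (for the problem: all of them over `k = ℂ`), `C` the Chow groups with rational
coefficients (in the form of their formal properties, `IsChowProj`), `H` a Weil cohomology theory
(`IsWeilProj`), and `DivisorProperties H` records two known facts: homologically trivial divisors on
a product `X × Y` are sums of pull-backs of divisors from `X` and from `Y`, and a correspondence of
degree zero which acts as zero on `H^1` acts as zero on homologically trivial divisors.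

The finite-dimensionality of the motive `h(Y)` in the sense of Kimura implies that the homologically
trivial self-correspondences of `Y` form a nilpotent ideal `J(Y)` (`NilpotentOfIndex H Y N`: all
products of `N` of them are zero) and that there are no phantoms: idempotents `e ≠ 0` in `J(Y)`.
This is the property of finite-dimensional motives which has the known consequences of Kimura's
conjecture (Bloch's conjecture, lifting of idempotents, conservativity).

`ThroughDim C d Γ` says that the self-correspondence `Γ` of `Y` is a sum of compositions `Y → D → Y`
through varieties `D` of dimension `d`; for instance `Γ` is supported on `V × Y` with `dim V = d`.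
Such correspondences act as zero on the cycles of dimension less than `dim Y - d`. Conversely, if
the products of `m` elements of `J(Y)` act as zero on the cycles of dimension less than `c` over all
extension fields, then the products of `c m` elements factor through dimension `dim Y - c`, by the
argument of Bloch and Srinivas; over `ℂ` and for `c = 1` it is enough that they act as zero on
`CH_0(Y)`.

Theorem. Let `n` be the dimension of `Y`.
(1) Let `2 d ≤ n + 1`. If all products of `m` elements of `J(Y)` factor through dimension `d`, then
all products of `3 m + 2` elements of `J(Y)` are zero.
(2) So, for `2 d ≤ n + 1`, the ideal `J(Y)` is nilpotent if and only if some power of it factors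
through dimension `d`.
(3) If `d + d' ≤ n + 1`, and `e ∈ J(Y)` is an idempotent such that `e` factors through dimension `d`
and its transpose through dimension `d'`, then `e = 0`.

So nilpotence and phantoms are detected by the cycles of dimension less than `(n - 1) / 2`: for
threefolds (and surfaces) by the zero-cycles alone, in dimensions four and five by the cycles of
dimension at most one, etc.; the cycles in the other half of the dimensions play no role. Part (3)
applies in particular to the projectors on the exterior powers `Λ^N M_+` and the symmetric powers
`Sym^N M_-` of the even and the odd part of `h(X)` on `Y = X^N`, for `N` larger than the Betti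
numbers, whose vanishing is Kimura's conjecture.
-/

set_option autoImplicit false

open CategoryTheory AlgebraicGeometry

universe u v w

namespace Pool.Agent.Results.MP_868bb7_ag.NilpotenceInHalfTheDimensions

open Pool.Agent.H914 Pool.Agent.W492.BB Pool.Agent.W550.Corr Pool.Agent.TH133 Pool.Agent.X308.P

/-- The nilpotence of the ideal of homologically trivial self-correspondences and the vanishing of
phantoms are detected by the cycles of dimension less than `(dim Y - 1) / 2`. -/
theorem result {k : Type u} [Field k] {𝒱 : VarClass k} (C : TheoryData.{u, v, 0} 𝒱 ℚ)
    [IsChowProj C] {K : Type w} [Field K] (H : WeilTheoryData.{u, v, w} C K) [IsWeilProj H]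
    (hP : DivisorProperties H) :
    (∀ (Y : 𝒱.Obj) (m d : ℕ), 2 * d ≤ Y.dim + 1 → ProductsThroughDim H Y m d →
      NilpotentOfIndex H Y (3 * m + 2)) ∧
    (∀ (Y : 𝒱.Obj) (d : ℕ), 2 * d ≤ Y.dim + 1 →
      ((∃ m, NilpotentOfIndex H Y m) ↔ ∃ m, ProductsThroughDim H Y m d)) ∧
    (∀ (Y : 𝒱.Obj) (e : C.A (Y.prod Y)) (d d' : ℕ), d + d' ≤ Y.dim + 1 → IsPhantom H e →
      ThroughDim C d e → ThroughDim C d' (tp C e) → IsZeroCorr C e) :=
  nilpotence_main hP

end Pool.Agent.Results.MP_868bb7_ag.NilpotenceInHalfTheDimensions
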