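import Pool.Agent.X279.KP.Nil

/-!
# Nilpotence descends from symmetric and exterior powers

`C` is a `ℚ`-linear rigid symmetric monoidal category whose unit object has only rational scalars as
endomorphisms, with a symmetric monoidal additive functor `R` to finite dimensional super vector
spaces over a field `K`; for the problem `C` is the category of Chow motives over `ℂ` with rational
coefficients and `R` is the rational cohomology.

Theorem. Let `P` be the symmetric power `Sym ^ n M` or the exterior power `Λ ^ n M`, `n ≥ 1`.
(1) If all homologically trivial endomorphisms of `P` are nilpotent then all homologically trivial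
endomorphisms of `M` are nilpotent. (2) The same holds for numerically trivial endomorphisms.
(3) If all numerically trivial endomorphisms of `P` have `k`-th power zero, `k ≥ 1`, then all
numerically trivial endomorphisms of `M` have `(k n)`-th power zero; and the same for homologically
trivial endomorphisms.

There is no condition on the realisation: Kimura's theorem, that the numerically trivial
endomorphisms of a motive `M` with `Λ ^ n M = 0` or `Sym ^ n M = 0` are nilpotent, is the case
`P = 0`.

Proof. For a homologically or numerically trivial endomorphism `f` of `M` the endomorphism of `P`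
induced by `f ⊗ ⋯ ⊗ f` has the same property, so that its `k`-th power, which is induced by
`g = f ^ k`, vanishes. Contract all factors but one in the identity `(g ⊗ ⋯ ⊗ g) ∘ asym = 0`. The
traces of the powers of `g` vanish, only the terms of the `n`-cycles remain, and these give
`g ^ n = 0`.
-/

set_option autoImplicit false

open CategoryTheory Limits MonoidalCategory

namespace Pool.Agent.Results.MP_868bb7_ag.NilpotenceOfPowers

open Pool.Agent.Y112.SR Pool.Agent.Y112.KD Pool.Agent.X279.KP

universe v u w

section

variable {C : Type u} [Category.{v} C] [Preadditive C] [Linear ℚ C] [MonoidalCategory C]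
  [MonoidalPreadditive C] [MonoidalLinear ℚ C] [SymmetricCategory C] [RightRigidCategory C]

/-- The endomorphism `f` is numerically trivial: the trace of `f ∘ g` vanishes for all
endomorphisms `g`. -/
def NumTrivial (hU : UnitQ C) {M : C} (f : End M) : Prop := ∀ g : End M, trq hU M (f * g) = 0

/-- The endomorphism `f` is homologically trivial: its realisation vanishes. -/
def HomTrivial {K : Type w} [Field K] (R : SuperRealisation C K) {M : C} (f : End M) : Prop :=
  R.H.map (f : M ⟶ M) = 0

end

theorem result {C : Type u} [Category.{v} C] [Preadditive C] [Linear ℚ C] [MonoidalCategory C]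
    [MonoidalPreadditive C] [MonoidalLinear ℚ C] [SymmetricCategory C] [RightRigidCategory C]
    (hU : UnitQ C) {K : Type w} [Field K] (R : SuperRealisation C K)
    (η : ℚ) (hη : η = 1 ∨ η = -1) (M P : C) (n : ℕ) (hn : 1 ≤ n) (hP : IsPower η M n P) :
    ((∀ x : End P, HomTrivial R x → IsNilpotent x) → ∀ f : End M, HomTrivial R f →
      IsNilpotent f) ∧
    ((∀ x : End P, NumTrivial hU x → IsNilpotent x) → ∀ f : End M, NumTrivial hU f →
      IsNilpotent f) ∧
    ∀ k : ℕ, 1 ≤ k →
      ((∀ x : End P, HomTrivial R x → x ^ k = 0) → ∀ f : End M, HomTrivial R f →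
        f ^ (k * n) = 0) ∧
      ((∀ x : End P, NumTrivial hU x → x ^ k = 0) → ∀ f : End M, NumTrivial hU f →
        f ^ (k * n) = 0) := by
  have hη' : η * η = 1 := by rcases hη with rfl | rfl <;> norm_num
  obtain ⟨i, r, hir, hri⟩ := hP
  have hom_num : ∀ {M : C} (f : End M), HomTrivial R f → NumTrivial hU f :=
    fun f hf => Pool.Agent.X264.KF.inRad_of_real R hU f hf
  have key : ∀ f : End M, NumTrivial hU f → ∀ k : ℕ, 1 ≤ k → (indE i r f) ^ k = 0 →
      f ^ (k * n) = 0 := fun f hf k hk h0 =>
    pow_eq_zero' hU hη' hn hir hri f
      (fun l hl => Pool.Agent.TH829.Kim.InRad.tr_pow hf l hl) hk h0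
  have nil : ∀ f : End M, NumTrivial hU f → IsNilpotent (indE i r f) → IsNilpotent f := by
    rintro f hf ⟨k, hk⟩
    have h1 : (indE i r f) ^ (k + 1) = 0 := by rw [pow_succ, hk, zero_mul]
    exact ⟨_, key f hf (k + 1) (by omega) h1⟩
  refine ⟨fun h f hf => nil f (hom_num f hf) (h _ (map_indE_zero R hn i r f hf)),
    fun h f hf => nil f hf (h _ (inRad_indE R hU hn i r f hf)), fun k hk => ⟨fun h f hf =>
      key f (hom_num f hf) k hk (h _ (map_indE_zero R hn i r f hf)), fun h f hf =>
      key f hf k hk (h _ (inRad_indE R hU hn i r f hf))⟩⟩

end Pool.Agent.Results.MP_868bb7_ag.NilpotenceOfPowers
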