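import Pool.Agent.X310.RqB

/-!
# Kimura finite-dimensionality for varieties with a finite group of automorphisms

Let `C` be the category of Chow motives over `ℂ` with rational coefficients and let `KF M` say that `M` is Kimura
finite-dimensional. By Kimura (2005) this property is stable under direct sums and direct summands (`IsThick KF`).

Let a finite group `G` act on a smooth projective variety, with the motive `X`. For a subgroup `D` of `G` let `Q D` be
the motive of the quotient by `D` (the direct summand of `X` cut out by the mean of the elements of `D`).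

* Let the family `D i` of subgroups be rich: each irreducible `ℚ`-representation of `G` has a nonzero vector fixed by
  some `D i`. Then `X` is Kimura finite-dimensional if and only if the quotients by the `D i` are.
* If `G` has no irreducible representation in which only `1` has nonzero fixed vectors (so, if `G` is not a Frobenius
  complement; for example if `G` has a noncyclic subgroup of order `ℓ²` or `ℓℓ'`, `ℓ`, `ℓ'` primes), then `X` is Kimura
  finite-dimensional if and only if the quotients by the elements `g ≠ 1` of `G` are.
* Let `τ ∈ G`, `τ² = 1`, and let `comms τ` be generated by the `g τ g⁻¹ τ⁻¹`. Then `X` is Kimura finite-dimensional if and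
  only if the quotients by `τ` and by `comms τ` are; and if and only if the quotient by `τ` is, if `τ ∈ comms τ`, for
  example if `G` is a nonabelian simple group.
* If `X` is not Kimura finite-dimensional, but all the quotients of `X` by elements `g ≠ 1` of `G` are, then `G` has an
  irreducible representation in which only `1` has nonzero fixed vectors (`G` is trivial or a Frobenius complement).
-/

set_option autoImplicit false

universe v u

namespace Pool.Agent.Results.MP_868bb7_ag.QuotientsByGroups

open CategoryTheory Pool.Agent.X310.Rq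

variable {C : Type u} [Category.{v} C] [Preadditive C] [Linear ℚ C]

/-- All quotients of `X` by nontrivial elements of `G` satisfy `KF`. -/
def QuotientsSatisfy (KF : C → Prop) (X : C) (G : Type) [Group G] (ρ : G →* End X) : Prop :=
  ∀ g : G, g ≠ 1 → ∀ Y : C, IsQuotientBy ρ (Subgroup.zpowers g) Y → KF Y

theorem result (KF : C → Prop) (hKF : IsThick KF) {G : Type} [Group G] [Finite G] (X : C)
    (ρ : G →* End X) (Q : Subgroup G → C) (hQ : ∀ D, IsQuotientBy ρ D (Q D)) :
    (∀ (ι : Type) (D : ι → Subgroup G), IsRich D → (KF X ↔ ∀ i, KF (Q (D i)))) ∧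
    (¬ HasFreeRep G → (KF X ↔ ∀ g : G, g ≠ 1 → KF (Q (Subgroup.zpowers g)))) ∧
    (∀ τ : G, τ * τ = 1 →
      (KF X ↔ KF (Q (Subgroup.zpowers τ)) ∧ KF (Q (comms τ))) ∧
      (τ ∈ comms τ → (KF X ↔ KF (Q (Subgroup.zpowers τ))))) ∧
    (¬ KF X → QuotientsSatisfy KF X G ρ → HasFreeRep G) := by
  have key : ∀ (ι : Type) (D : ι → Subgroup G), IsRich D → (KF X ↔ ∀ i, KF (Q (D i))) := by
    intro ι D hD
    exact ⟨fun h i => quot_mem ρ (D i) _ (hQ (D i)) _ hKF h,
      fun h => rich_mem D hD ρ (fun i => Q (D i)) (fun i => hQ (D i)) _ hKF h⟩
  have key2 : ¬ HasFreeRep G → (KF X ↔ ∀ g : G, g ≠ 1 → KF (Q (Subgroup.zpowers g))) := by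
    intro hG
    rw [key _ _ (rich_of_not_free hG)]
    exact ⟨fun h g hg => h ⟨g, hg⟩, fun h g => h g.1 g.2⟩
  refine ⟨key, key2, fun τ hτ => ⟨?_, fun hm => ?_⟩, fun hX h => ?_⟩
  · rw [key _ _ (rich_pair hτ)]
    refine ⟨fun h => ⟨h true, h false⟩, ?_⟩
    rintro ⟨h1, h2⟩ (_ | _)
    exacts [h2, h1]
  · rw [key _ _ (rich_single hτ hm)]
    exact ⟨fun h => h (), fun h _ => h⟩
  · by_contra hG
    exact hX ((key2 hG).2 fun g hg => h g hg _ (hQ _))

end Pool.Agent.Results.MP_868bb7_ag.QuotientsByGroups
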