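import Pool.Agent.X279.KP.Main

/-!
# Kimura-finiteness descends from symmetric and exterior powers

`C` is a `ℚ`-linear, idempotent complete, rigid symmetric monoidal category whose unit object has
only rational scalars as endomorphisms, with a symmetric monoidal additive functor `R` to finite
dimensional super vector spaces over a field `K`; for the problem `C` is the category of Chow
motives over `ℂ` with rational coefficients and `R` is the rational cohomology.

Let `S ^ n` denote the `n`-th symmetric power (`η = 1`) or the `n`-th exterior power (`η = -1`).

Theorem. Let `n, m ≥ 1` and let `S ^ (n + m - 1) M` have a nonzero realisation. If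
`S ^ n M ⊗ S ^ m M` is Kimura-finite then `M` is Kimura-finite.

So, if the realisation of `S ^ (2 n - 1) M` is not zero, then `M` is Kimura-finite as soon as
`S ^ n M` is (the tensor square of a Kimura-finite motive is Kimura-finite by a theorem of Kimura);
for a motive `M` with nonzero even and odd cohomology this applies to all symmetric and all exterior
powers.

Steps of the proof. (1) In the group algebra of the symmetric group on `n + m` letters let `h` be
the (anti)symmetrizer of the first `n + m - 1` letters, `t` the one of all letters and `q` the
product of those of the first `n` and of the last `m` letters. Then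
`h q h = t + a (h - t)`, where `a = n / ((n + m - 1) m)` is not zero. Hence `S ^ (n + m - 1) M ⊗ M`
is a direct summand of `S ^ n M ⊗ S ^ m M`. (2) Direct summands of Kimura-finite objects are
Kimura-finite, and Kimura-finiteness descends from a tensor product to its factors with nonzero
realisations (`MP_6e5bed_ag.TensorFactors`).
-/

set_option autoImplicit false

open CategoryTheory Limits MonoidalCategory

namespace Pool.Agent.Results.MP_868bb7_ag.SymmetricPowers

open Pool.Agent.Y112.SR Pool.Agent.Y112.KD Pool.Agent.X264.KF Pool.Agent.X279.KP

universe v u w

theorem result {C : Type u} [Category.{v} C] [Preadditive C] [Linear ℚ C] [MonoidalCategory C]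
    [MonoidalPreadditive C] [MonoidalLinear ℚ C] [SymmetricCategory C] [RightRigidCategory C]
    [IsIdempotentComplete C] (hU : UnitQ C) {K : Type w} [Field K] (R : SuperRealisation C K)
    (η : ℚ) (hη : η = 1 ∨ η = -1) (M P Q : C) (n m : ℕ) (hn : 1 ≤ n) (hm : 1 ≤ m)
    (hP : IsPower η M n P) (hQ : IsPower η M m Q) (h0 : R.H.map (asym η M (n + m - 1)) ≠ 0)
    (h : IsKimuraFinite (P ⊗ Q)) : IsKimuraFinite M :=
  kf_of_powers R hU (by rcases hη with rfl | rfl <;> norm_num) hn hm hP hQ h0 h

end Pool.Agent.Results.MP_868bb7_ag.SymmetricPowers
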